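import Pool.Agent.helper77.BND.SpecY

set_option autoImplicit false

open scoped Topology Matrix
open Filter

namespace Pool.Agent.BND

open Pool.Agent.CZ Pool.Agent.PV

/-- evaluation at a point as a ring homomorphism -/
noncomputable def YN1_ev {X : Type} [TopologicalSpace X] (x : X) : C(X, ℂ) →+* ℂ where
  toFun f := f x
  map_one' := rfl
  map_mul' _ _ := rfl
  map_zero' := rfl
  map_add' _ _ := rfl

theorem YN1_mul {X : Type} [TopologicalSpace X] {ι : Type} [Fintype ι] (a b : Matrix ι ι C(X, ℂ)) (x : X) :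
    (a * b).map (fun f => f x) = a.map (fun f => f x) * b.map (fun f => f x) :=
  Matrix.map_mul (f := YN1_ev x)

theorem YN1_one {X : Type} [TopologicalSpace X] {ι : Type} [Fintype ι] [DecidableEq ι] (x : X) :
    (1 : Matrix ι ι C(X, ℂ)).map (fun f => f x) = 1 :=
  Matrix.map_one _ rfl rfl

theorem YN1_mapc {X : Type} [TopologicalSpace X] {ι : Type} (a : Matrix ι ι C(X, ℂ)) :
    Continuous fun x => a.map (fun f => f x) :=
  continuous_matrix fun i j => (a i j).continuous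

theorem YN1_htp (hYUN : YUN_stmt) {X : Type} [TopologicalSpace X] [CompactSpace X] {ι : Type} [Fintype ι]
    [DecidableEq ι] (G : unitInterval × X → Matrix ι ι ℂ) (hG : Continuous G) (hu : ∀ q, IsUnit (G q))
    (g g' : (Matrix ι ι C(X, ℂ))ˣ) (h0 : ∀ x i j, (g : Matrix ι ι C(X, ℂ)) i j x = G (0, x) i j)
    (h1 : ∀ x i j, (g' : Matrix ι ι C(X, ℂ)) i j x = G (1, x) i j) : Htp g g' := by
  refine ⟨⟨fun t => Matrix.of fun i j =>
    (⟨fun q => G q i j, hG.matrix_elem i j⟩ : C(unitInterval × X, ℂ)).curry t, ?_⟩, fun t => ?_, ?_, ?_⟩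
  · exact continuous_matrix fun i j =>
      (⟨fun q => G q i j, hG.matrix_elem i j⟩ : C(unitInterval × X, ℂ)).curry.continuous
  · refine hYUN.1 X ι _ fun x => ?_
    exact hu (t, x)
  · ext i j x
    exact (h0 x i j).symm
  · ext i j x
    exact (h1 x i j).symm

theorem YN1 (hYUN : YUN_stmt) (hGLC : GLC_stmt) : YN1_stmt := by
  intro X _ _ _ p W hW hp ι _ _ g
  classical
  obtain ⟨gx, hgx⟩ : ∃ gx : X → Matrix ι ι ℂ, ∀ x, gx x = (g : Matrix ι ι C(X, ℂ)).map (fun f => f x) :=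
    ⟨_, fun _ => rfl⟩
  obtain ⟨gi, hgi⟩ : ∃ gi : X → Matrix ι ι ℂ, ∀ x, gi x =
    ((g⁻¹ : (Matrix ι ι C(X, ℂ))ˣ) : Matrix ι ι C(X, ℂ)).map (fun f => f x) := ⟨_, fun _ => rfl⟩
  have hgxc : Continuous gx := by
    rw [show gx = fun x => (g : Matrix ι ι C(X, ℂ)).map (fun f => f x) from funext hgx]
    exact YN1_mapc _
  have hgic : Continuous gi := by
    rw [show gi = fun x => ((g⁻¹ : (Matrix ι ι C(X, ℂ))ˣ) : Matrix ι ι C(X, ℂ)).map (fun f => f x) from
      funext hgi]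
    exact YN1_mapc _
  have hg1 : ∀ x, gx x * gi x = 1 := by
    intro x
    rw [hgx, hgi, ← YN1_mul, Units.mul_inv, YN1_one]
  have hg2 : ∀ x, gi x * gx x = 1 := by
    intro x
    rw [hgx, hgi, ← YN1_mul, Units.inv_mul, YN1_one]
  obtain ⟨γ, hγu, hγ0, hγ1⟩ := hGLC ι ⟨gx p, gi p, hg1 p, hg2 p⟩
  obtain ⟨A, hA⟩ : ∃ A : unitInterval → Matrix ι ι ℂ, ∀ t, A t = (γ t)⁻¹ := ⟨_, fun _ => rfl⟩
  have hdet : ∀ t, IsUnit (γ t).det := fun t => (Matrix.isUnit_iff_isUnit_det _).1 (hγu t)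
  have hA1 : ∀ t, γ t * A t = 1 := fun t => by rw [hA]; exact Matrix.mul_nonsing_inv _ (hdet t)
  have hA2 : ∀ t, A t * γ t = 1 := fun t => by rw [hA]; exact Matrix.nonsing_inv_mul _ (hdet t)
  have hAc : Continuous A := by
    have e : A = fun t => ((γ t).det)⁻¹ • (γ t).adjugate := by
      funext t
      rw [hA, Matrix.inv_def, Ring.inverse_eq_inv']
    rw [e]
    exact (γ.continuous.matrix_det.inv₀ fun t => (hdet t).ne_zero).smul γ.continuous.matrix_adjugate
  have hAone : A 1 = 1 := by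
    have h := hA2 1
    rw [hγ1] at h
    simpa using h
  have hAzero : gx p * A 0 = 1 := by
    have h := hA1 0
    rw [hγ0] at h
    exact h
  obtain ⟨χ, hχ0, hχ1, hχ⟩ := exists_continuous_zero_one_of_isClosed (isClosed_singleton (x := p))
    hW.isClosed_compl (by simpa using hp)
  obtain ⟨c, hc⟩ : ∃ c : X → unitInterval, ∀ x, c x = ⟨χ x, hχ x⟩ := ⟨_, fun _ => rfl⟩
  have hcc : Continuous c := by
    rw [show c = fun x => ⟨χ x, hχ x⟩ from funext hc]
    exact χ.continuous.subtype_mk _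
  have hcp : c p = 0 := by
    rw [hc]
    exact Subtype.ext (hχ0 (Set.mem_singleton p))
  have hcW : ∀ x, x ∉ W → c x = 1 := by
    intro x hx
    rw [hc]
    exact Subtype.ext (hχ1 hx)
  obtain ⟨g₁, hg₁⟩ : ∃ g₁ : X → Matrix ι ι ℂ, ∀ x, g₁ x = gx x * A (c x) := ⟨_, fun _ => rfl⟩
  have hg₁c : Continuous g₁ := by
    rw [show g₁ = fun x => gx x * A (c x) from funext hg₁]
    exact hgxc.matrix_mul (hAc.comp hcc)
  obtain ⟨j₁, hj₁⟩ : ∃ j₁ : X → Matrix ι ι ℂ, ∀ x, j₁ x = γ (c x) * gi x := ⟨_, fun _ => rfl⟩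
  have hj₁c : Continuous j₁ := by
    rw [show j₁ = fun x => γ (c x) * gi x from funext hj₁]
    exact (γ.continuous.comp hcc).matrix_mul hgic
  have hgj : ∀ x, g₁ x * j₁ x = 1 := by
    intro x
    rw [hg₁, hj₁, Matrix.mul_assoc, ← Matrix.mul_assoc (A _), hA2, Matrix.one_mul, hg1]
  have hjg : ∀ x, j₁ x * g₁ x = 1 := by
    intro x
    rw [hg₁, hj₁, Matrix.mul_assoc, ← Matrix.mul_assoc (gi _), hg2, Matrix.one_mul, hA1]
  have hg₁p : g₁ p = 1 := by rw [hg₁, hcp, hAzero]
  have hg₁W : ∀ x, x ∉ W → g₁ x = gx x := by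
    intro x hx
    rw [hg₁, hcW x hx, hAone, Matrix.mul_one]
  -- the neighbourhood
  have hev : ∀ᶠ x in 𝓝 p, x ∈ W ∧ ∀ i j, (Fintype.card ι : ℝ) * ‖g₁ x i j - (1 : Matrix ι ι ℂ) i j‖ < 1 / 2 := by
    refine (hW.eventually_mem hp).and ?_
    refine eventually_all.2 fun i => eventually_all.2 fun j => ?_
    have h : Continuous fun x => (Fintype.card ι : ℝ) * ‖g₁ x i j - (1 : Matrix ι ι ℂ) i j‖ :=
      continuous_const.mul ((hg₁c.matrix_elem i j).sub continuous_const).norm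
    have h1 := h.tendsto p
    rw [hg₁p, sub_self, norm_zero, mul_zero] at h1
    exact h1.eventually (gt_mem_nhds (by norm_num))
  obtain ⟨N, hN, hNo, hpN⟩ := eventually_nhds_iff.1 hev
  obtain ⟨C, hC, hCc, hCN⟩ := exists_mem_nhds_isClosed_subset (hNo.mem_nhds hpN)
  obtain ⟨θ, hθ0, hθ1, hθ⟩ := exists_continuous_zero_one_of_isClosed hCc hNo.isClosed_compl
    (Set.disjoint_compl_right_iff_subset.2 hCN)
  -- the deformation
  obtain ⟨b, hb⟩ : ∃ b : ℝ → X → Matrix ι ι ℂ, ∀ s x, b s x = 1 + (s : ℂ) • (g₁ x - 1) := ⟨_, fun _ _ => rfl⟩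
  have hbc : Continuous fun q : ℝ × X => b q.1 q.2 := by
    rw [show (fun q : ℝ × X => b q.1 q.2) = fun q => 1 + (q.1 : ℂ) • (g₁ q.2 - 1) from
      funext fun q => hb q.1 q.2]
    exact continuous_const.add ((Complex.continuous_ofReal.comp continuous_fst).smul
      ((hg₁c.comp continuous_snd).sub continuous_const))
  have hb1 : ∀ x, b 1 x = g₁ x := by
    intro x
    rw [hb, Complex.ofReal_one, one_smul, add_sub_cancel]
  have hbN : ∀ s x, 0 ≤ s → s ≤ 1 → x ∈ N → IsUnit (b s x) := by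
    intro s x hs0 hs1 hx
    refine hYUN.2 ι _ fun i j => ?_
    have h1 := (hN x hx).2 i j
    have h2 : b s x i j - (1 : Matrix ι ι ℂ) i j = (s : ℂ) * (g₁ x i j - (1 : Matrix ι ι ℂ) i j) := by
      rw [hb]
      simp only [Matrix.add_apply, Matrix.smul_apply, Matrix.sub_apply, smul_eq_mul]
      ring
    rw [h2, norm_mul, Complex.norm_real, Real.norm_of_nonneg hs0]
    have h3 : 0 ≤ (Fintype.card ι : ℝ) * ‖g₁ x i j - (1 : Matrix ι ι ℂ) i j‖ := by positivity
    nlinarith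
  have hbu : ∀ (s : unitInterval) x, IsUnit (b (1 - s + s * θ x) x) := by
    intro s x
    by_cases hx : x ∈ N
    · have h1 := s.2.1
      have h2 := s.2.2
      have h3 := (hθ x).1
      have h4 := (hθ x).2
      refine hbN _ x ?_ ?_ hx
      · have := mul_nonneg h1 h3
        linarith
      · nlinarith [mul_nonneg h1 (sub_nonneg.2 h4)]
    · have h1 : θ x = 1 := hθ1 hx
      rw [h1]
      have h2 : (1 : ℝ) - s + s * 1 = 1 := by ring
      rw [h2, hb1]
      exact ⟨⟨g₁ x, j₁ x, hgj x, hjg x⟩, rfl⟩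
  have hb2u : IsUnit (Matrix.of fun i j => (⟨fun x => b (θ x) x i j,
      (hbc.comp (θ.continuous.prodMk continuous_id)).matrix_elem i j⟩ : C(X, ℂ))) := by
    refine hYUN.1 X ι _ fun x => ?_
    have h := hbu 1 x
    have e : (1 : ℝ) - ((1 : unitInterval) : ℝ) + ((1 : unitInterval) : ℝ) * θ x = θ x := by
      simp
    rw [e] at h
    exact h
  obtain ⟨g₂, hg₂⟩ := hb2u
  have hg₂' : ∀ x i j, (g₂ : Matrix ι ι C(X, ℂ)) i j x = b (θ x) x i j := by
    intro x i j
    rw [hg₂]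
    rfl
  refine ⟨g₂, ?_, ?_, ?_⟩
  · refine YN1_htp hYUN (fun q => gx q.2 * A (max (c q.2) (unitInterval.symm q.1)) * j₁ q.2 *
      b (1 - q.1 + q.1 * θ q.2) q.2) ?_ ?_ g g₂ ?_ ?_
    · have h1 : Continuous fun q : unitInterval × X => gx q.2 := hgxc.comp continuous_snd
      have h2 : Continuous fun q : unitInterval × X => A (max (c q.2) (unitInterval.symm q.1)) :=
        hAc.comp ((hcc.comp continuous_snd).max (unitInterval.continuous_symm.comp continuous_fst))
      have h3 : Continuous fun q : unitInterval × X => j₁ q.2 := hj₁c.comp continuous_snd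
      have h4 : Continuous fun q : unitInterval × X => b (1 - q.1 + q.1 * θ q.2) q.2 := by
        have h5 : Continuous fun q : unitInterval × X => (((1 : ℝ) - q.1 + q.1 * θ q.2, q.2) : ℝ × X) := by
          have h6 : Continuous fun q : unitInterval × X => (q.1 : ℝ) := continuous_subtype_val.comp continuous_fst
          exact ((continuous_const.sub h6).add (h6.mul (θ.continuous.comp continuous_snd))).prodMk continuous_snd
        exact hbc.comp h5
      exact ((h1.matrix_mul h2).matrix_mul h3).matrix_mul h4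
    · intro q
      refine IsUnit.mul (IsUnit.mul (IsUnit.mul ?_ ?_) ?_) (hbu q.1 q.2)
      · exact ⟨⟨gx q.2, gi q.2, hg1 _, hg2 _⟩, rfl⟩
      · exact ⟨⟨A _, γ _, hA2 _, hA1 _⟩, rfl⟩
      · exact ⟨⟨j₁ q.2, g₁ q.2, hjg _, hgj _⟩, rfl⟩
    · intro x i j
      have e1 : max (c x) (unitInterval.symm 0) = 1 := by
        rw [unitInterval.symm_zero]
        exact max_eq_right le_top
      have e2 : (1 : ℝ) - ((0 : unitInterval) : ℝ) + ((0 : unitInterval) : ℝ) * θ x = 1 := by simp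
      show _ = (gx x * A (max (c x) (unitInterval.symm 0)) * j₁ x *
        b ((1 : ℝ) - ((0 : unitInterval) : ℝ) + ((0 : unitInterval) : ℝ) * θ x) x) i j
      rw [e1, e2, hb1, hAone, Matrix.mul_one, Matrix.mul_assoc, hjg, Matrix.mul_one, hgx]
      rfl
    · intro x i j
      have e1 : max (c x) (unitInterval.symm 1) = c x := by
        rw [unitInterval.symm_one]
        exact max_eq_left bot_le
      have e2 : (1 : ℝ) - ((1 : unitInterval) : ℝ) + ((1 : unitInterval) : ℝ) * θ x = θ x := by simp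
      show _ = (gx x * A (max (c x) (unitInterval.symm 1)) * j₁ x *
        b ((1 : ℝ) - ((1 : unitInterval) : ℝ) + ((1 : unitInterval) : ℝ) * θ x) x) i j
      rw [e1, e2, ← hg₁, hgj, Matrix.one_mul, hg₂']
  · filter_upwards [hC] with x hx i j
    have h1 : θ x = 0 := hθ0 hx
    rw [hg₂', h1, hb, Complex.ofReal_zero, zero_smul, add_zero]
  · intro x hx i j
    have h0 : x ∉ N := fun h => hx (hN x h).1
    have h1 : θ x = 1 := hθ1 h0
    rw [hg₂', h1, hb1, hg₁W x hx, hgx]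
    rfl

end Pool.Agent.BND
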